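import Mathlib
import Pool.Agent.Helper947.Crv.Z6
import Pool.Agent.Helper947.Hil.Final
import Pool.Agent.Helper920.Gal.Aut

/-!
# Two components of a Hilbert scheme of space curves with the same monomial ideals

The Hilbert scheme of closed subschemes of `ℙ³` with Hilbert polynomial `32 t + 1068` over an
algebraically closed field of characteristic zero has an irreducible component `Z` which is moved
by every automorphism `σ` of the field with `σ ω ≠ ω`, `ω` a primitive cube root of unity (the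
proof of `main_mac` of `Pool.Agent.Helper947.Crv`, written there for the algebraic numbers, works
over every field of characteristic zero).  Monomial ideals are fixed by `σ`, hence `Z` and `σ Z` are
distinct components with the same monomial ideals.
-/

set_option autoImplicit false

open MvPolynomial Filter CategoryTheory CategoryTheory.Limits AlgebraicGeometry
open Pool.Agent.Helper947.Crv

namespace Pool.Agent.Results.MP_f49c72_ag.SameMonomialIdealsCurves

/-- An ideal generated by monomials. -/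
def IsMonomialIdeal {K : Type} [Field K] (I : Ideal (Pl K)) : Prop :=
  ∃ S : Set (Fin 4 →₀ ℕ), I = Ideal.span ((fun s => monomial s (1 : K)) '' S)

/-- `Mon(Z)` for a set `Z` of points of the Hilbert scheme over the field `K`: the set of saturated
monomial ideals with the given Hilbert polynomial whose point lies on `Z`. -/
def Mon {d g : ℤ} (𝓗 : HilbertScheme d g) {K : Type} [Field K] (Z : Set (bc 𝓗 K)) :
    Set (Ideal (Pl K)) :=
  {I | IsMonomialIdeal I ∧ ∃ x : HilbPt d g K, x.I = I ∧ ptOf 𝓗 x ∈ Z}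

lemma map_monomialIdeal {K : Type} [Field K] (σ : K →+* K) {I : Ideal (Pl K)}
    (h : IsMonomialIdeal I) : I.map (MvPolynomial.map σ) = I := by
  obtain ⟨S, rfl⟩ := h
  rw [Ideal.map_span]
  congr 1
  rw [← Set.image_comp]
  refine Set.image_congr fun s _ => ?_
  rw [Function.comp_apply, map_monomial, map_one]

/-- `main_mac` over an arbitrary field of characteristic zero -/
theorem moved {k : Type} [Field k] [CharZero k] {ω : k} (hω : ω ^ 2 + ω + 1 = 0)
    (𝓗 : HilbertScheme 32 (-1067)) (x : HilbPt 32 (-1067) k)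
    (hx : x.I = (macCfg ω).J0) {Z : Set (bc 𝓗 k)}
    (hZ : Z ∈ irreducibleComponents (bc 𝓗 k)) (hxZ : ptOf 𝓗 x ∈ Z)
    (σ : k ≃+* k) (hσ : σ ω ≠ ω) :
    galAct 𝓗 σ '' Z ≠ Z := by
  intro hσZ
  have hirr : IsIrreducible Z := hZ.prop
  have hcl : IsClosed Z := isClosed_of_mem_irreducibleComponents Z hZ
  obtain ⟨η, hη⟩ := QuasiSober.sober hirr hcl
  have hω' : (σ ω) ^ 2 + σ ω + 1 = 0 := by
    rw [← map_pow, ← map_add, ← map_one σ, ← map_add, hω, map_zero]
  have hc := macCfg_good hω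
  have hc' := macCfg_good hω'
  obtain ⟨x', hx'⟩ := exists_pt hc' (d := 32) (g := -1067) (by simp) (by
    rw [macE_card]
    simp)
  have hmap : (macCfg ω).map (σ : k →+* k) = macCfg (σ ω) := by
    unfold macCfg
    rw [mkCfg_map]
    congr 1
    · funext j
      exact eis_map _ _ _
    · funext j
      exact eis_map _ _ _
  have hgal : galAct 𝓗 σ (ptOf 𝓗 x) = ptOf 𝓗 x' := by
    apply galAct_ptOf
    have h1 := J0_map (σ : k →+* k) hc
    rw [eventually_atTop] at h1
    obtain ⟨m0, hm0⟩ := h1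
    refine ⟨m0, fun m hm p hp => ?_⟩
    rw [hx, hx', hm0 m hm p hp, hmap]
  have hx'Z : ptOf 𝓗 x' ∈ Z := by
    rw [← hσZ, ← hgal]
    exact ⟨_, hxZ, rfl⟩
  have hsp : η ⤳ ptOf 𝓗 x := hη.specializes hxZ
  have hsp' : η ⤳ ptOf 𝓗 x' := hη.specializes hx'Z
  obtain ⟨K, _, _, f, hf⟩ := exists_geom η
  have hid : ∀ p : bc 𝓗 k, bcMap 𝓗 (RingHom.id k) p = p := by
    intro p
    rw [bcMap_id]
    rfl
  obtain ⟨V, θ, s, h1, h2, h3⟩ := key 𝓗 (RingHom.id k)
    (fun a => ⟨a, rfl⟩) x f (by rw [hf, hid]; exact hsp) hc hx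
  obtain ⟨V', θ', s', h1', h2', h3'⟩ := key 𝓗 (RingHom.id k)
    (fun a => ⟨a, rfl⟩) x' f (by rw [hf, hid]; exact hsp') hc' hx'
  have hs : V.subtype.comp s = V'.subtype.comp s' := by
    have h4 := h2.trans h2'.symm
    have h5 := Spec.map_injective h4
    exact congrArg CommRingCat.Hom.hom h5
  refine mac_contra hω hω' (fun h => hσ h.symm) V V' s s' hs
    (𝓗.Φ K (f ≫ pullback.fst _ _)).hom ?_ ?_
  · rw [h1]
    exact h3
  · rw [h1']
    exact h3'

theorem bcMap_comp {d g : ℤ} (𝓗 : HilbertScheme d g) {R R' R'' : Type} [CommRing R] [CommRing R']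
    [CommRing R''] (φ : R →+* R') (ψ : R' →+* R'') :
    bcMap 𝓗 ψ ≫ bcMap 𝓗 φ = bcMap 𝓗 (ψ.comp φ) := by
  apply pullback.hom_ext
  · simp only [bcMap, pullback.map, pullback.lift_fst, Category.comp_id, Category.assoc]
  · simp only [bcMap, pullback.map, pullback.lift_snd, Category.assoc, pullback.lift_snd_assoc,
      CommRingCat.ofHom_comp, Spec.map_comp]

theorem galAct_isIso {d g : ℤ} (𝓗 : HilbertScheme d g) {k : Type} [Field k] (σ : k ≃+* k) :
    IsIso (galAct 𝓗 σ) := by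
  refine ⟨⟨galAct 𝓗 σ.symm, ?_, ?_⟩⟩
  · unfold galAct
    rw [bcMap_comp]
    have : ((σ.symm : k →+* k).comp (σ.symm.symm : k →+* k)) = RingHom.id k := by
      ext y; simp
    rw [this, bcMap_id]
  · unfold galAct
    rw [bcMap_comp]
    have : ((σ.symm.symm : k →+* k).comp (σ.symm : k →+* k)) = RingHom.id k := by
      ext y; simp
    rw [this, bcMap_id]

/-- points of monomial ideals are fixed -/
theorem galAct_fixed {d g : ℤ} (𝓗 : HilbertScheme d g) {k : Type} [Field k] (σ : k ≃+* k)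
    (x : HilbPt d g k) (hx : IsMonomialIdeal x.I) : galAct 𝓗 σ (ptOf 𝓗 x) = ptOf 𝓗 x := by
  refine galAct_ptOf 𝓗 σ x x ⟨0, fun m _ p _ => ?_⟩
  rw [map_monomialIdeal (σ : k →+* k) hx]

theorem Mon_galAct {d g : ℤ} (𝓗 : HilbertScheme d g) {k : Type} [Field k] (σ : k ≃+* k)
    (Z : Set (bc 𝓗 k)) : Mon 𝓗 (galAct 𝓗 σ '' Z) = Mon 𝓗 Z := by
  have hiso := galAct_isIso 𝓗 σ
  ext I
  constructor
  · rintro ⟨hI, x, rfl, z, hz, hzx⟩
    refine ⟨hI, x, rfl, ?_⟩
    have h1 : z = ptOf 𝓗 x := by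
      apply (galAct 𝓗 σ).homeomorph.injective
      exact hzx.trans (galAct_fixed 𝓗 σ x hI).symm
    rwa [← h1]
  · rintro ⟨hI, x, rfl, hx⟩
    exact ⟨hI, x, rfl, _, hx, galAct_fixed 𝓗 σ x hI⟩

theorem exists_moving {ω : AlgebraicClosure ℚ} (hω : ω ^ 2 + ω + 1 = 0) :
    ∃ σ : AlgebraicClosure ℚ ≃ₐ[ℚ] AlgebraicClosure ℚ, σ ω ≠ ω := by
  by_contra hcon0
  have hcon : ∀ σ : AlgebraicClosure ℚ ≃ₐ[ℚ] AlgebraicClosure ℚ, σ ω = ω :=
    fun σ => by_contra fun h => hcon0 ⟨σ, h⟩
  have h1 : ω ∈ (algebraMap ℚ (AlgebraicClosure ℚ)).range := by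
    have halg : Algebra.IsAlgebraic ℚ (AlgebraicClosure ℚ) := AlgebraicClosure.isAlgebraic ℚ
    have : IsSepClosure ℚ (AlgebraicClosure ℚ) := ⟨inferInstance, inferInstance⟩
    have : IsGalois ℚ (AlgebraicClosure ℚ) := inferInstance
    have := (InfiniteGalois.mem_bot_iff_fixed (k := ℚ) (K := AlgebraicClosure ℚ) ω).2 hcon
    rwa [IntermediateField.mem_bot] at this
  obtain ⟨q, rfl⟩ := h1
  have h2 : (algebraMap ℚ (AlgebraicClosure ℚ)) (q ^ 2 + q + 1) = 0 := by
    simpa using hω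
  have h3 : q ^ 2 + q + 1 = 0 :=
    (map_eq_zero_iff _ (algebraMap ℚ (AlgebraicClosure ℚ)).injective).1 h2
  nlinarith [sq_nonneg (2 * q + 1)]

theorem exists_omega : ∃ ω : AlgebraicClosure ℚ, ω ^ 2 + ω + 1 = 0 := by
  obtain ⟨ω, hω⟩ := IsAlgClosed.exists_root
    (Polynomial.X ^ 2 + Polynomial.X + 1 : Polynomial (AlgebraicClosure ℚ)) (by
      have : (Polynomial.X ^ 2 + Polynomial.X + 1 :
          Polynomial (AlgebraicClosure ℚ)).degree = 2 := by
        compute_degree!
      rw [this]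
      norm_num)
  refine ⟨ω, ?_⟩
  simpa [Polynomial.IsRoot] using hω

/-- an automorphism moving a primitive cube root of unity -/
lemma exists_auto (K : Type) [Field K] [IsAlgClosed K] [CharZero K] :
    ∃ (ω : K) (σ : K ≃+* K), ω ^ 2 + ω + 1 = 0 ∧ σ ω ≠ ω := by
  have halg : Algebra.IsAlgebraic ℚ (AlgebraicClosure ℚ) := AlgebraicClosure.isAlgebraic ℚ
  obtain ⟨ω, hω⟩ := exists_omega
  obtain ⟨τ, hτ⟩ := exists_moving hω
  let i : AlgebraicClosure ℚ →ₐ[ℚ] K := IsAlgClosed.lift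
  let := i.toRingHom.toAlgebra
  obtain ⟨σ, hσ⟩ := Pool.Agent.Helper920.Gal.exists_extend (k := K) τ.toRingEquiv
  refine ⟨i ω, σ, ?_, ?_⟩
  · rw [← map_pow, ← map_add, ← map_one i, ← map_add, hω, map_zero]
  · have h2 : σ (i ω) = i (τ ω) := hσ ω
    rw [h2]
    exact fun h => hτ (i.injective h)

theorem isIso_image_eq {X Y : Scheme.{0}} (e : X ⟶ Y) [IsIso e] (Z : Set X) :
    e '' Z = (inv e) ⁻¹' Z := by
  ext y
  constructor
  · rintro ⟨x, hx, rfl⟩
    have : (inv e) (e x) = x := by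
      rw [← Scheme.Hom.comp_apply, IsIso.hom_inv_id]; rfl
    rw [Set.mem_preimage, this]
    exact hx
  · intro hy
    refine ⟨_, hy, ?_⟩
    rw [← Scheme.Hom.comp_apply, IsIso.inv_hom_id]; rfl

theorem isIso_image_comp {X Y : Scheme.{0}} (e : X ⟶ Y) [IsIso e] {Z : Set X}
    (hZ : Z ∈ irreducibleComponents X) : e '' Z ∈ irreducibleComponents Y := by
  rw [isIso_image_eq]
  refine preimage_mem_irreducibleComponents hZ (inv e).isOpenEmbedding ?_
  obtain ⟨z, hz⟩ := hZ.1.1
  refine ⟨z, hz, e z, ?_⟩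
  rw [← Scheme.Hom.comp_apply, IsIso.hom_inv_id]; rfl

/-- Over every algebraically closed field of characteristic zero, the Hilbert scheme of closed
subschemes of projective 3-space with Hilbert polynomial `32 t + 1068` has two distinct irreducible
components with the same saturated monomial ideals. -/
theorem result (K : Type) [Field K] [IsAlgClosed K] [CharZero K] :
    Nonempty (HilbertScheme 32 (-1067)) ∧
    ∀ 𝓗 : HilbertScheme 32 (-1067),
      ∃ Z₁ ∈ irreducibleComponents (bc 𝓗 K), ∃ Z₂ ∈ irreducibleComponents (bc 𝓗 K),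
        Z₁ ≠ Z₂ ∧ Mon 𝓗 Z₁ = Mon 𝓗 Z₂ := by
  refine ⟨?_, fun 𝓗 => ?_⟩
  · have h := Pool.Agent.Helper947.Hil.hilbert_scheme_exists 32 1068
    norm_num at h
    exact h
  · obtain ⟨ω, σ, hω, hσ⟩ := exists_auto K
    obtain ⟨x, hx⟩ := exists_pt (d := 32) (g := -1067) (macCfg_good hω)
      (by norm_num) (by rw [macE_card]; norm_num)
    have hiso := galAct_isIso 𝓗 σ
    have hZ := irreducibleComponent_mem_irreducibleComponents (ptOf 𝓗 x)
    exact ⟨_, hZ, _, isIso_image_comp (galAct 𝓗 σ) hZ,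
      (moved hω 𝓗 x hx hZ mem_irreducibleComponent σ hσ).symm, (Mon_galAct 𝓗 σ _).symm⟩

end Pool.Agent.Results.MP_f49c72_ag.SameMonomialIdealsCurves
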